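import Pool.Agent.Helper80.EC_F.Goals

/-!
# PSI: the integral of `Ψ_e`

With `Z = e exp(iπ/3) exp(-s)`, `s = πw/3`, `Q = 1/(1-Z)`, the sums `∑ m^k Z^m` are polynomials in
`Q`, `dQ/ds = -(Q^2-Q)`, and `Ψ_e` is the imaginary part of the derivative of
`-(s^3/2) G_2 - (5/2) s^2 G_1 - 6 s G_0 + 6 log (1-Z)`.
-/

set_option autoImplicit false

open MeasureTheory Filter Topology Set

namespace EC237.PF.PkPSI

/-- `s = π w / 3`. -/
noncomputable def sv (w : ℝ) : ℝ := Real.pi * w / 3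

/-- `Z`. -/
noncomputable def Z (e w : ℝ) : ℂ :=
  (e : ℂ) * Complex.exp (((-(sv w) : ℝ) : ℂ) + ((Real.pi / 3 : ℝ) : ℂ) * Complex.I)

/-- `Q = 1 / (1 - Z)`. -/
noncomputable def Q (e w : ℝ) : ℂ := (1 - Z e w)⁻¹

theorem Z_re (e w : ℝ) : (Z e w).re = e * (Real.exp (-(sv w)) / 2) := by
  unfold Z
  rw [Complex.re_ofReal_mul, Complex.exp_re]
  simp only [Complex.add_re, Complex.ofReal_re, Complex.mul_re, Complex.I_re, mul_zero,
    Complex.ofReal_im, Complex.I_im, mul_one, sub_self, add_zero, Complex.add_im, Complex.mul_im,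
    zero_add]
  rw [Real.cos_pi_div_three]
  ring

theorem norm_Z {e : ℝ} (he : |e| = 1) (w : ℝ) : ‖Z e w‖ = Real.exp (-(sv w)) := by
  unfold Z
  rw [norm_mul, Complex.norm_exp, Complex.norm_real, Real.norm_eq_abs, he, one_mul]
  simp

theorem sv_nonneg {w : ℝ} (hw : 0 ≤ w) : 0 ≤ sv w := by
  unfold sv
  positivity

theorem half_le {e : ℝ} (he : |e| = 1) {w : ℝ} (hw : 0 ≤ w) : 1 / 2 ≤ (1 - Z e w).re := by
  rw [Complex.sub_re, Complex.one_re, Z_re]
  have h1 : Real.exp (-(sv w)) ≤ 1 := Real.exp_le_one_iff.2 (by linarith [sv_nonneg hw])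
  have h2 := Real.exp_pos (-(sv w))
  have h3 : e ≤ 1 := by
    have := le_abs_self e
    linarith
  nlinarith

theorem ne_zero {e : ℝ} (he : |e| = 1) {w : ℝ} (hw : 0 ≤ w) : 1 - Z e w ≠ 0 := by
  intro h
  have h1 := half_le he hw
  rw [h, Complex.zero_re] at h1
  norm_num at h1

theorem norm_Q_le {e : ℝ} (he : |e| = 1) {w : ℝ} (hw : 0 ≤ w) : ‖Q e w‖ ≤ 2 := by
  unfold Q
  have h1 : 1 / 2 ≤ ‖1 - Z e w‖ := (half_le he hw).trans ((le_abs_self _).trans
    (Complex.abs_re_le_norm _))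
  rw [norm_inv]
  rw [inv_le_comm₀ (by linarith) (by norm_num)]
  linarith

theorem hasDeriv_sv (w : ℝ) : HasDerivAt sv (Real.pi / 3) w := by
  unfold sv
  refine (((hasDerivAt_id w).const_mul Real.pi).div_const 3).congr_deriv ?_
  simp

theorem hasDeriv_Z (e w : ℝ) : HasDerivAt (Z e) (-((Real.pi / 3 : ℝ) : ℂ) * Z e w) w := by
  unfold Z
  have h1 : HasDerivAt (fun w : ℝ => ((-(sv w) : ℝ) : ℂ)) ((-(Real.pi / 3) : ℝ) : ℂ) w :=
    (hasDeriv_sv w).neg.ofReal_comp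
  have h2 := ((h1.add_const (((Real.pi / 3 : ℝ) : ℂ) * Complex.I)).cexp).const_mul (e : ℂ)
  refine h2.congr_deriv ?_
  push_cast
  ring

theorem one_sub_eq {e w : ℝ} (h : 1 - Z e w ≠ 0) : Z e w * Q e w = Q e w - 1 := by
  unfold Q
  field_simp
  ring

theorem hasDeriv_Q {e w : ℝ} (h : 1 - Z e w ≠ 0) :
    HasDerivAt (Q e) (-((Real.pi / 3 : ℝ) : ℂ) * (Q e w ^ 2 - Q e w)) w := by
  have h1 : HasDerivAt (fun w => 1 - Z e w) (((Real.pi / 3 : ℝ) : ℂ) * Z e w) w := by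
    refine ((hasDeriv_Z e w).const_sub 1).congr_deriv ?_
    ring
  have h2 : HasDerivAt (Q e) (-(((Real.pi / 3 : ℝ) : ℂ) * Z e w) / (1 - Z e w) ^ 2) w :=
    h1.fun_inv h
  refine h2.congr_deriv ?_
  have h3 : -(((Real.pi / 3 : ℝ) : ℂ) * Z e w) / (1 - Z e w) ^ 2 =
      -((Real.pi / 3 : ℝ) : ℂ) * (Q e w * (Z e w * Q e w)) := by
    unfold Q
    field_simp
  rw [h3, one_sub_eq h]
  ring

/-- `∑ m Z^m`, `∑ m^2 Z^m`, `∑ m^3 Z^m`. -/
noncomputable def G1 (e w : ℝ) : ℂ := Z e w * Q e w ^ 2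

noncomputable def G2 (e w : ℝ) : ℂ := Z e w * (1 + Z e w) * Q e w ^ 3

noncomputable def G3 (e w : ℝ) : ℂ := Z e w * (1 + 4 * Z e w + Z e w ^ 2) * Q e w ^ 4

theorem G1_eq {e w : ℝ} (h : 1 - Z e w ≠ 0) : G1 e w = Q e w ^ 2 - Q e w := by
  have h1 := one_sub_eq h
  unfold G1
  linear_combination (Q e w) * h1

theorem G2_eq {e w : ℝ} (h : 1 - Z e w ≠ 0) : G2 e w = 2 * Q e w ^ 3 - 3 * Q e w ^ 2 + Q e w := by
  have h1 := one_sub_eq h
  unfold G2
  linear_combination (Q e w ^ 2 + (Q e w) * (Z e w * Q e w + Q e w - 1)) * h1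

theorem G3_eq {e w : ℝ} (h : 1 - Z e w ≠ 0) :
    G3 e w = 6 * Q e w ^ 4 - 12 * Q e w ^ 3 + 7 * Q e w ^ 2 - Q e w := by
  have h1 := one_sub_eq h
  have e1 : G3 e w = Q e w * ((Z e w * Q e w) * (Q e w ^ 2 + 4 * Q e w * (Z e w * Q e w) +
    (Z e w * Q e w) ^ 2)) := by
    unfold G3
    ring
  rw [e1, h1]
  ring

/-- The complex integrand. -/
noncomputable def PC (e w : ℝ) : ℂ :=
  ((Real.pi ^ 2 / 9 * w : ℝ) : ℂ) * (G1 e w + (sv w : ℂ) * G2 e w + (sv w : ℂ) ^ 2 / 2 * G3 e w)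

/-- Its primitive. -/
noncomputable def HC (e w : ℝ) : ℂ :=
  -((sv w : ℂ) ^ 3 / 2) * G2 e w - 5 / 2 * (sv w : ℂ) ^ 2 * G1 e w -
    6 * (sv w : ℂ) * (Z e w * Q e w) + 6 * Complex.log (1 - Z e w)

theorem hasDeriv_HC {e : ℝ} (he : |e| = 1) {w : ℝ} (hw : 0 ≤ w) :
    HasDerivAt (HC e) (PC e w) w := by
  have hne := ne_zero he hw
  have hs : HasDerivAt (fun w : ℝ => (sv w : ℂ)) ((Real.pi / 3 : ℝ) : ℂ) w :=
    (hasDeriv_sv w).ofReal_comp
  have hQ := hasDeriv_Q hne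
  have hl : HasDerivAt (fun w => Complex.log (1 - Z e w))
      (((Real.pi / 3 : ℝ) : ℂ) * (Q e w - 1)) w := by
    have h1 : HasDerivAt (fun w => 1 - Z e w) (((Real.pi / 3 : ℝ) : ℂ) * Z e w) w := by
      refine ((hasDeriv_Z e w).const_sub 1).congr_deriv ?_
      ring
    refine (h1.clog_real ?_).congr_deriv ?_
    · left
      have := half_le he hw
      linarith
    · rw [← one_sub_eq hne]
      unfold Q
      rw [div_eq_mul_inv]
      ring
  -- near `w` the function is a polynomial in `Q` and `s` plus the logarithm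
  have hev : HC e =ᶠ[𝓝 w] fun w => -((sv w : ℂ) ^ 3 / 2) * (2 * Q e w ^ 3 - 3 * Q e w ^ 2 + Q e w) -
      5 / 2 * (sv w : ℂ) ^ 2 * (Q e w ^ 2 - Q e w) - 6 * (sv w : ℂ) * (Q e w - 1) +
      6 * Complex.log (1 - Z e w) := by
    have hc : ContinuousAt (fun w => 1 - Z e w) w :=
      continuousAt_const.sub (hasDeriv_Z e w).continuousAt
    filter_upwards [hc.eventually_ne hne] with x hx
    unfold HC
    rw [G1_eq hx, G2_eq hx, one_sub_eq hx]
  refine HasDerivAt.congr_of_eventuallyEq ?_ hev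
  have hA : HasDerivAt (fun w => 2 * Q e w ^ 3 - 3 * Q e w ^ 2 + Q e w)
      (2 * (3 * Q e w ^ 2 * (-((Real.pi / 3 : ℝ) : ℂ) * (Q e w ^ 2 - Q e w))) -
        3 * (2 * Q e w * (-((Real.pi / 3 : ℝ) : ℂ) * (Q e w ^ 2 - Q e w))) +
        (-((Real.pi / 3 : ℝ) : ℂ) * (Q e w ^ 2 - Q e w))) w := by
    refine ((((hQ.fun_pow 3).const_mul 2).sub ((hQ.fun_pow 2).const_mul 3)).add hQ).congr_deriv ?_
    push_cast
    ring
  have hB : HasDerivAt (fun w => Q e w ^ 2 - Q e w)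
      ((2 * Q e w * (-((Real.pi / 3 : ℝ) : ℂ) * (Q e w ^ 2 - Q e w))) -
        (-((Real.pi / 3 : ℝ) : ℂ) * (Q e w ^ 2 - Q e w))) w := by
    refine ((hQ.fun_pow 2).sub hQ).congr_deriv ?_
    push_cast
    ring
  have h1 : HasDerivAt (fun w : ℝ => -((sv w : ℂ) ^ 3 / 2))
      (-(3 * (sv w : ℂ) ^ 2 * ((Real.pi / 3 : ℝ) : ℂ) / 2)) w := by
    refine ((hs.fun_pow 3).div_const 2).neg.congr_deriv ?_
    push_cast
    ring
  have h2 : HasDerivAt (fun w : ℝ => 5 / 2 * (sv w : ℂ) ^ 2)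
      (5 / 2 * (2 * (sv w : ℂ) * ((Real.pi / 3 : ℝ) : ℂ))) w := by
    refine ((hs.fun_pow 2).const_mul (5 / 2)).congr_deriv ?_
    push_cast
    ring
  have h3 : HasDerivAt (fun w : ℝ => 6 * (sv w : ℂ)) (6 * ((Real.pi / 3 : ℝ) : ℂ)) w :=
    hs.const_mul 6
  refine ((((h1.mul hA).sub (h2.mul hB)).sub (h3.mul (hQ.sub_const 1))).add
    (hl.const_mul 6)).congr_deriv ?_
  unfold PC
  rw [G1_eq hne, G2_eq hne, G3_eq hne]
  have hsv : (sv w : ℂ) = (Real.pi : ℂ) * w / 3 := by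
    unfold sv
    push_cast
    ring
  push_cast
  rw [hsv]
  ring

/-! ### Bounds -/

theorem norm_Z_le_one {e : ℝ} (he : |e| = 1) {w : ℝ} (hw : 0 ≤ w) : ‖Z e w‖ ≤ 1 := by
  rw [norm_Z he]
  exact Real.exp_le_one_iff.2 (by linarith [sv_nonneg hw])

theorem norm_G1_le {e : ℝ} (he : |e| = 1) {w : ℝ} (hw : 0 ≤ w) :
    ‖G1 e w‖ ≤ 4 * Real.exp (-(sv w)) := by
  unfold G1
  rw [norm_mul, norm_pow, norm_Z he]
  have h1 := norm_Q_le he hw
  have h2 : ‖Q e w‖ ^ 2 ≤ 2 ^ 2 := pow_le_pow_left₀ (norm_nonneg _) h1 2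
  nlinarith [Real.exp_pos (-(sv w))]

theorem norm_G2_le {e : ℝ} (he : |e| = 1) {w : ℝ} (hw : 0 ≤ w) :
    ‖G2 e w‖ ≤ 16 * Real.exp (-(sv w)) := by
  unfold G2
  rw [norm_mul, norm_mul, norm_pow, norm_Z he]
  have h1 := norm_Q_le he hw
  have h2 : ‖Q e w‖ ^ 3 ≤ 2 ^ 3 := pow_le_pow_left₀ (norm_nonneg _) h1 3
  have h3 : ‖1 + Z e w‖ ≤ 2 := by
    refine (norm_add_le _ _).trans ?_
    rw [norm_one]
    linarith [norm_Z_le_one he hw]
  have hE := Real.exp_pos (-(sv w))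
  calc Real.exp (-(sv w)) * ‖1 + Z e w‖ * ‖Q e w‖ ^ 3
      ≤ Real.exp (-(sv w)) * 2 * 2 ^ 3 :=
        mul_le_mul (mul_le_mul_of_nonneg_left h3 hE.le) h2 (by positivity) (by positivity)
    _ = 16 * Real.exp (-(sv w)) := by ring

theorem norm_G3_le {e : ℝ} (he : |e| = 1) {w : ℝ} (hw : 0 ≤ w) :
    ‖G3 e w‖ ≤ 96 * Real.exp (-(sv w)) := by
  unfold G3
  rw [norm_mul, norm_mul, norm_pow, norm_Z he]
  have h1 := norm_Q_le he hw
  have h2 : ‖Q e w‖ ^ 4 ≤ 2 ^ 4 := pow_le_pow_left₀ (norm_nonneg _) h1 4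
  have hz := norm_Z_le_one he hw
  have h3 : ‖1 + 4 * Z e w + Z e w ^ 2‖ ≤ 6 := by
    refine (norm_add_le _ _).trans ?_
    have e1 : ‖1 + 4 * Z e w‖ ≤ 1 + 4 * ‖Z e w‖ := by
      refine (norm_add_le _ _).trans ?_
      rw [norm_one, norm_mul]
      simp
    have e2 : ‖Z e w ^ 2‖ ≤ 1 := by
      rw [norm_pow]
      exact pow_le_one₀ (norm_nonneg _) hz
    linarith
  have hE := Real.exp_pos (-(sv w))
  calc Real.exp (-(sv w)) * ‖1 + 4 * Z e w + Z e w ^ 2‖ * ‖Q e w‖ ^ 4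
      ≤ Real.exp (-(sv w)) * 6 * 2 ^ 4 :=
        mul_le_mul (mul_le_mul_of_nonneg_left h3 hE.le) h2 (by positivity) (by positivity)
    _ = 96 * Real.exp (-(sv w)) := by ring

theorem norm_PC_le {e : ℝ} (he : |e| = 1) {w : ℝ} (hw : 0 ≤ w) :
    ‖PC e w‖ ≤ Real.pi ^ 2 / 9 * w * ((4 + 16 * sv w + 48 * sv w ^ 2) * Real.exp (-(sv w))) := by
  unfold PC
  have hs := sv_nonneg hw
  have h0 : 0 ≤ Real.pi ^ 2 / 9 * w := by positivity
  rw [norm_mul, Complex.norm_real, Real.norm_of_nonneg h0]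
  refine mul_le_mul_of_nonneg_left ?_ h0
  refine (norm_add₃_le).trans ?_
  rw [norm_mul, norm_mul, norm_div, norm_pow, Complex.norm_real, Real.norm_of_nonneg hs]
  have h1 := norm_G1_le he hw
  have h2 := mul_le_mul_of_nonneg_left (norm_G2_le he hw) hs
  have h3 := mul_le_mul_of_nonneg_left (norm_G3_le he hw) (by positivity : 0 ≤ sv w ^ 2 / 2)
  have h4 : ‖(2:ℂ)‖ = 2 := by simp
  rw [h4]
  linarith

theorem int_mono (k : ℕ) {b : ℝ} (hb : 0 < b) :
    IntegrableOn (fun x : ℝ => x ^ k * Real.exp (-(b * x))) (Ioi 0) := by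
  have h := integrableOn_rpow_mul_exp_neg_mul_rpow (p := 1) (s := k) (b := b)
    (by have : (0:ℝ) ≤ k := Nat.cast_nonneg k
        linarith) one_pos hb
  refine h.congr_fun (fun x _ => ?_) measurableSet_Ioi
  simp only [Real.rpow_natCast, Real.rpow_one]
  ring_nf

theorem cont_PC {e : ℝ} (he : |e| = 1) : ContinuousOn (PC e) (Ici 0) := by
  intro w hw
  have hne := ne_zero he hw
  apply ContinuousAt.continuousWithinAt
  have hZ : ContinuousAt (Z e) w := (hasDeriv_Z e w).continuousAt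
  have hQ : ContinuousAt (Q e) w := (hasDeriv_Q hne).continuousAt
  have hs : ContinuousAt (fun w : ℝ => (sv w : ℂ)) w := ((hasDeriv_sv w).ofReal_comp).continuousAt
  have hw' : ContinuousAt (fun w : ℝ => ((Real.pi ^ 2 / 9 * w : ℝ) : ℂ)) w :=
    (Complex.continuous_ofReal.comp (by fun_prop)).continuousAt
  unfold PC G1 G2 G3
  fun_prop

theorem int_PC {e : ℝ} (he : |e| = 1) : IntegrableOn (PC e) (Ioi 0) := by
  have hb : 0 < Real.pi / 3 := by positivity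
  have h1 := ((int_mono 1 hb).const_mul (Real.pi ^ 2 / 9 * 4)).add
    (((int_mono 2 hb).const_mul (Real.pi ^ 2 / 9 * (16 * (Real.pi / 3)))).add
      ((int_mono 3 hb).const_mul (Real.pi ^ 2 / 9 * (48 * (Real.pi / 3) ^ 2))))
  refine Integrable.mono' h1 ?_ ?_
  · exact ((cont_PC he).mono Ioi_subset_Ici_self).aestronglyMeasurable measurableSet_Ioi
  · refine (ae_restrict_iff' measurableSet_Ioi).2 (ae_of_all _ fun w hw => ?_)
    refine (norm_PC_le he (le_of_lt hw)).trans (le_of_eq ?_)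
    have : sv w = Real.pi / 3 * w := by
      unfold sv
      ring
    rw [this]
    simp only [Pi.add_apply]
    ring

theorem tendsto_sv : Tendsto sv atTop atTop := by
  have hb : 0 < Real.pi / 3 := by positivity
  have := (tendsto_id (α := ℝ) (x := atTop)).const_mul_atTop hb
  refine this.congr fun w => ?_
  unfold sv
  simp only [id]
  ring

theorem tendsto_HC {e : ℝ} (he : |e| = 1) : Tendsto (HC e) atTop (𝓝 0) := by
  have hk : ∀ k : ℕ, Tendsto (fun w => sv w ^ k * Real.exp (-(sv w))) atTop (𝓝 0) := fun k =>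
    (Real.tendsto_pow_mul_exp_neg_atTop_nhds_zero k).comp tendsto_sv
  have hZ : Tendsto (Z e) atTop (𝓝 0) := by
    have h0 : Tendsto (fun w => Real.exp (-(sv w))) atTop (𝓝 0) := by
      refine (hk 0).congr fun w => ?_
      rw [pow_zero, one_mul]
    refine squeeze_zero_norm (fun w => ?_) h0
    rw [norm_Z he]
  have hlog : Tendsto (fun w => 6 * Complex.log (1 - Z e w)) atTop (𝓝 0) := by
    have h1 : Tendsto (fun w => 1 - Z e w) atTop (𝓝 1) := by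
      simpa using hZ.const_sub 1
    have h2 := (continuousAt_clog (x := (1:ℂ)) (by simp)).tendsto.comp h1
    rw [Complex.log_one] at h2
    simpa using h2.const_mul 6
  have h1 : Tendsto (fun w => -((sv w : ℂ) ^ 3 / 2) * G2 e w) atTop (𝓝 0) := by
    refine squeeze_zero_norm' ?_ (by simpa using (hk 3).const_mul 8)
    filter_upwards [eventually_ge_atTop (0:ℝ)] with w hw
    have hs := sv_nonneg hw
    have h4 : ‖(2:ℂ)‖ = 2 := by simp
    rw [norm_mul, norm_neg, norm_div, norm_pow, Complex.norm_real, Real.norm_of_nonneg hs, h4]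
    have := mul_le_mul_of_nonneg_left (norm_G2_le he hw) (by positivity : 0 ≤ sv w ^ 3 / 2)
    linarith
  have h2 : Tendsto (fun w => 5 / 2 * (sv w : ℂ) ^ 2 * G1 e w) atTop (𝓝 0) := by
    refine squeeze_zero_norm' ?_ (by simpa using (hk 2).const_mul 10)
    filter_upwards [eventually_ge_atTop (0:ℝ)] with w hw
    have hs := sv_nonneg hw
    have h4 : ‖(5 / 2:ℂ)‖ = 5 / 2 := by
      rw [norm_div]
      simp
    rw [norm_mul, norm_mul, norm_pow, Complex.norm_real, Real.norm_of_nonneg hs, h4]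
    have := mul_le_mul_of_nonneg_left (norm_G1_le he hw) (by positivity : 0 ≤ 5 / 2 * sv w ^ 2)
    linarith
  have h3 : Tendsto (fun w => 6 * (sv w : ℂ) * (Z e w * Q e w)) atTop (𝓝 0) := by
    refine squeeze_zero_norm' ?_ (by simpa using (hk 1).const_mul 12)
    filter_upwards [eventually_ge_atTop (0:ℝ)] with w hw
    have hs := sv_nonneg hw
    have h4 : ‖(6:ℂ)‖ = 6 := by simp
    rw [norm_mul, norm_mul, norm_mul, Complex.norm_real, Real.norm_of_nonneg hs, h4, norm_Z he]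
    have := mul_le_mul_of_nonneg_left (norm_Q_le he hw)
      (by positivity : 0 ≤ 6 * sv w * Real.exp (-(sv w)))
    linarith
  have h5 := ((h1.sub h2).sub h3).add hlog
  rw [sub_zero, sub_zero, add_zero] at h5
  exact h5

theorem integral_PC {e : ℝ} (he : |e| = 1) :
    ∫ w in Ioi (0:ℝ), PC e w = -(6 * Complex.log (1 - Z e 0)) := by
  rw [integral_Ioi_of_hasDerivAt_of_tendsto (hasDeriv_HC he le_rfl).continuousAt.continuousWithinAt
    (fun w hw => hasDeriv_HC he (le_of_lt hw)) (int_PC he) (tendsto_HC he)]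
  unfold HC
  have : sv 0 = 0 := by
    unfold sv
    simp
  rw [this]
  simp

/-! ### The series -/

theorem hasSum_G {e w : ℝ} (h : ‖Z e w‖ < 1) :
    HasSum (fun n : ℕ => ((n:ℂ) + 1) * (1 + ((n:ℂ) + 1) * (sv w : ℂ) +
      (((n:ℂ) + 1) * (sv w : ℂ)) ^ 2 / 2) * Z e w ^ (n + 1))
      (G1 e w + (sv w : ℂ) * G2 e w + (sv w : ℂ) ^ 2 / 2 * G3 e w) := by
  have hne : 1 - Z e w ≠ 0 := by
    intro h0
    have : Z e w = 1 := by linear_combination -h0
    rw [this, norm_one] at h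
    exact lt_irrefl _ h
  have k1 := hasSum_choose_mul_geometric_of_norm_lt_one 1 h
  have k2 := hasSum_choose_mul_geometric_of_norm_lt_one 2 h
  have k3 := hasSum_choose_mul_geometric_of_norm_lt_one 3 h
  have c1 : ∀ n : ℕ, (((n + 1).choose 1 : ℕ) : ℂ) = (n:ℂ) + 1 := by
    intro n
    rw [Nat.choose_one_right]
    push_cast
    ring
  have c2 : ∀ n : ℕ, 2 * (((n + 2).choose 2 : ℕ) : ℂ) = ((n:ℂ) + 1) * ((n:ℂ) + 2) := by
    intro n
    have h1 := Nat.choose_two_right (n + 2)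
    have h2 : (n + 2).choose 2 * 2 = (n + 2) * (n + 1) := by
      rw [h1]
      have : 2 ∣ (n + 2) * (n + 2 - 1) := (Nat.even_mul_pred_self (n + 2)).two_dvd
      rw [Nat.div_mul_cancel this]
      rfl
    have h3 : (((n + 2).choose 2 : ℕ) : ℂ) * 2 = ((n:ℂ) + 2) * ((n:ℂ) + 1) := by
      exact_mod_cast h2
    linear_combination h3
  have c3 : ∀ n : ℕ, 6 * (((n + 3).choose 3 : ℕ) : ℂ) =
      ((n:ℂ) + 1) * ((n:ℂ) + 2) * ((n:ℂ) + 3) := by
    intro n
    have h1 := Nat.add_one_mul_choose_eq (n + 2) 2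
    have h2 : ((n:ℂ) + 3) * (((n + 2).choose 2 : ℕ) : ℂ) = (((n + 3).choose 3 : ℕ) : ℂ) * 3 := by
      have : (n + 3) * (n + 2).choose 2 = (n + 3).choose 3 * 3 := h1
      exact_mod_cast this
    linear_combination -2 * h2 + ((n:ℂ) + 3) * c2 n
  have hQ1 : (1 / (1 - Z e w) ^ (1 + 1) : ℂ) = Q e w ^ 2 := by
    unfold Q
    rw [one_div, inv_pow]
  have hQ2 : (1 / (1 - Z e w) ^ (2 + 1) : ℂ) = Q e w ^ 3 := by
    unfold Q
    rw [one_div, inv_pow]
  have hQ3 : (1 / (1 - Z e w) ^ (3 + 1) : ℂ) = Q e w ^ 4 := by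
    unfold Q
    rw [one_div, inv_pow]
  rw [hQ1] at k1
  rw [hQ2] at k2
  rw [hQ3] at k3
  have hone := one_sub_eq hne
  have hS1 : HasSum (fun n : ℕ => ((n:ℂ) + 1) * Z e w ^ (n + 1)) (G1 e w) := by
    have h1 := k1.mul_left (Z e w)
    have e1 : (fun n : ℕ => ((n:ℂ) + 1) * Z e w ^ (n + 1)) =
        fun n : ℕ => Z e w * ((((n + 1).choose 1 : ℕ) : ℂ) * Z e w ^ n) := by
      funext n
      rw [c1]
      ring
    rw [e1]
    exact h1
  have hS2 : HasSum (fun n : ℕ => ((n:ℂ) + 1) ^ 2 * Z e w ^ (n + 1)) (G2 e w) := by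
    have h1 := ((k2.mul_left 2).sub k1).mul_left (Z e w)
    have e1 : (fun n : ℕ => ((n:ℂ) + 1) ^ 2 * Z e w ^ (n + 1)) =
        fun n : ℕ => Z e w * (2 * ((((n + 2).choose 2 : ℕ) : ℂ) * Z e w ^ n) -
          (((n + 1).choose 1 : ℕ) : ℂ) * Z e w ^ n) := by
      funext n
      rw [← mul_assoc 2, c2, c1]
      ring
    have e2 : G2 e w = Z e w * (2 * Q e w ^ 3 - Q e w ^ 2) := by
      unfold G2
      linear_combination (Z e w * Q e w ^ 2) * hone
    rw [e1, e2]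
    exact h1
  have hS3 : HasSum (fun n : ℕ => ((n:ℂ) + 1) ^ 3 * Z e w ^ (n + 1)) (G3 e w) := by
    have h1 := (((k3.mul_left 6).sub (k2.mul_left 6)).add k1).mul_left (Z e w)
    have e1 : (fun n : ℕ => ((n:ℂ) + 1) ^ 3 * Z e w ^ (n + 1)) =
        fun n : ℕ => Z e w * (6 * ((((n + 3).choose 3 : ℕ) : ℂ) * Z e w ^ n) -
          6 * ((((n + 2).choose 2 : ℕ) : ℂ) * Z e w ^ n) +
          (((n + 1).choose 1 : ℕ) : ℂ) * Z e w ^ n) := by
      funext n
      rw [← mul_assoc 6, ← mul_assoc 6, c3, c1]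
      linear_combination (3 * Z e w * Z e w ^ n) * c2 n
    have e2 : G3 e w = Z e w * (6 * Q e w ^ 4 - 6 * Q e w ^ 3 + Q e w ^ 2) := by
      have e3 : G3 e w = Z e w * Q e w ^ 2 * (Q e w ^ 2 + 4 * Q e w * (Z e w * Q e w) +
          (Z e w * Q e w) ^ 2) := by
        unfold G3
        ring
      rw [e3, hone]
      ring
    rw [e1, e2]
    exact h1
  have h4 := (hS1.add (hS2.mul_left (sv w : ℂ))).add (hS3.mul_left ((sv w : ℂ) ^ 2 / 2))
  have e4 : (fun n : ℕ => ((n:ℂ) + 1) * (1 + ((n:ℂ) + 1) * (sv w : ℂ) +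
      (((n:ℂ) + 1) * (sv w : ℂ)) ^ 2 / 2) * Z e w ^ (n + 1)) =
      fun n : ℕ => ((n:ℂ) + 1) * Z e w ^ (n + 1) + (sv w : ℂ) * (((n:ℂ) + 1) ^ 2 *
        Z e w ^ (n + 1)) + (sv w : ℂ) ^ 2 / 2 * (((n:ℂ) + 1) ^ 3 * Z e w ^ (n + 1)) := by
    funext n
    ring
  rw [e4]
  exact h4

theorem Z_pow_im (e w : ℝ) (n : ℕ) : (Z e w ^ (n + 1)).im =
    e ^ (n + 1) * Real.sin (Real.pi * ((n:ℝ) + 1) / 3) *
      Real.exp (-(Real.pi * ((n:ℝ) + 1) / 3 * w)) := by
  unfold Z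
  rw [mul_pow, ← Complex.exp_nat_mul, ← Complex.ofReal_pow, Complex.im_ofReal_mul]
  have h1 : ((n + 1 : ℕ) : ℂ) * (((-(sv w) : ℝ) : ℂ) + ((Real.pi / 3 : ℝ) : ℂ) * Complex.I) =
      ((-(Real.pi * ((n:ℝ) + 1) / 3 * w) : ℝ) : ℂ) +
        ((Real.pi * ((n:ℝ) + 1) / 3 : ℝ) : ℂ) * Complex.I := by
    unfold sv
    push_cast
    ring
  rw [h1, Complex.exp_im]
  simp only [Complex.add_re, Complex.ofReal_re, Complex.mul_re, Complex.I_re, mul_zero,
    Complex.ofReal_im, Complex.I_im, mul_one, sub_self, add_zero, Complex.add_im, Complex.mul_im,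
    zero_add]
  ring

theorem Psi_eq {e : ℝ} (he : |e| = 1) {w : ℝ} (hw : 0 < w) : Psi e w = (PC e w).im := by
  have hlt : ‖Z e w‖ < 1 := by
    rw [norm_Z he]
    have : 0 < sv w := by
      unfold sv
      positivity
    exact Real.exp_lt_one_iff.2 (by linarith)
  have h1 := (Complex.hasSum_iff _ _).1 (hasSum_G hlt)
  have h2 := h1.2.tsum_eq
  unfold Psi PC
  rw [Complex.im_ofReal_mul, ← h2]
  congr 1
  refine tsum_congr fun m => ?_
  have h3 : ((m:ℂ) + 1) * (1 + ((m:ℂ) + 1) * (sv w : ℂ) + (((m:ℂ) + 1) * (sv w : ℂ)) ^ 2 / 2) =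
      ((((m:ℝ) + 1) * (1 + ((m:ℝ) + 1) * sv w + (((m:ℝ) + 1) * sv w) ^ 2 / 2) : ℝ) : ℂ) := by
    push_cast
    ring
  rw [h3, Complex.im_ofReal_mul, Z_pow_im]
  unfold sv
  ring

theorem psi_int {e : ℝ} (he : |e| = 1) : IntegrableOn (Psi e) (Ioi 0) ∧
    ∫ w in Ioi (0:ℝ), Psi e w = -(6 * (Complex.log (1 - Z e 0)).im) := by
  have hi := int_PC he
  have h1 : IntegrableOn (fun w => (PC e w).im) (Ioi 0) := hi.im
  refine ⟨h1.congr_fun (fun w hw => (Psi_eq he hw).symm) measurableSet_Ioi, ?_⟩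
  rw [setIntegral_congr_fun measurableSet_Ioi fun w hw => Psi_eq he hw]
  have h2 : ∫ w in Ioi (0:ℝ), (PC e w).im = (∫ w in Ioi (0:ℝ), PC e w).im := by
    have := integral_im (𝕜 := ℂ) hi
    exact this
  rw [h2, integral_PC he, Complex.neg_im]
  congr 1
  have : (6 : ℂ) = ((6 : ℝ) : ℂ) := by norm_num
  rw [this, Complex.im_ofReal_mul]

theorem Z_zero (e : ℝ) : Z e 0 = (e : ℂ) * (((1 / 2 : ℝ) : ℂ) +
    ((Real.sqrt 3 / 2 : ℝ) : ℂ) * Complex.I) := by
  unfold Z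
  have : sv 0 = 0 := by
    unfold sv
    simp
  rw [this, neg_zero, Complex.ofReal_zero, zero_add, Complex.exp_mul_I, ← Complex.ofReal_cos,
    ← Complex.ofReal_sin, Real.cos_pi_div_three, Real.sin_pi_div_three]

theorem thm : G_PSI := by
  have hs3 : Real.sqrt 3 * Real.sqrt 3 = 3 := Real.mul_self_sqrt (by norm_num)
  have h1 := psi_int (e := 1) (by simp)
  have h2 := psi_int (e := -1) (by simp)
  have l1 : (Complex.log (1 - Z 1 0)).im = -(Real.pi / 3) := by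
    rw [Complex.log_im]
    have : 1 - Z 1 0 = ((1:ℝ) : ℂ) * (Complex.cos ((-(Real.pi / 3) : ℝ) : ℂ) +
        Complex.sin ((-(Real.pi / 3) : ℝ) : ℂ) * Complex.I) := by
      rw [Z_zero, ← Complex.ofReal_cos, ← Complex.ofReal_sin, Real.cos_neg, Real.sin_neg,
        Real.cos_pi_div_three, Real.sin_pi_div_three]
      push_cast
      ring
    rw [this, Complex.arg_mul_cos_add_sin_mul_I one_pos]
    constructor <;> linarith [Real.pi_pos]
  have l2 : (Complex.log (1 - Z (-1) 0)).im = Real.pi / 6 := by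
    rw [Complex.log_im]
    have : 1 - Z (-1) 0 = ((Real.sqrt 3 : ℝ) : ℂ) * (Complex.cos ((Real.pi / 6 : ℝ) : ℂ) +
        Complex.sin ((Real.pi / 6 : ℝ) : ℂ) * Complex.I) := by
      rw [Z_zero, ← Complex.ofReal_cos, ← Complex.ofReal_sin, Real.cos_pi_div_six,
        Real.sin_pi_div_six]
      have h3 : ((Real.sqrt 3 : ℝ) : ℂ) * ((Real.sqrt 3 : ℝ) : ℂ) = 3 := by
        exact_mod_cast congrArg (fun x : ℝ => (x : ℂ)) hs3
      push_cast
      linear_combination (-(1 / 2) : ℂ) * h3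
    rw [this, Complex.arg_mul_cos_add_sin_mul_I (Real.sqrt_pos.2 (by norm_num))]
    constructor <;> linarith [Real.pi_pos]
  refine ⟨h1.1, ?_, h2.1, ?_⟩
  · rw [h1.2, l1]
    ring
  · rw [h2.2, l2]
    ring

end EC237.PF.PkPSI
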